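import Pool.Agent.Helper771.FreeNilp
import Pool.Agent.R619.Isotypic

/-!
# The varieties of nilpotent associative algebras are logically perfect and logically regular

Homogeneity of the free nilpotent algebras is a starting result (Helper771); here the answer to both
parts of the question is assembled: perfectness and regularity for every field and every `n ≥ 2`.
-/

set_option autoImplicit false

namespace Pool.Agent.Results.MP_00fd70_lc.PerfectAndRegular

open FirstOrder Pool.Agent.Helper771.FreeNilp Pool.Agent.R619.Iso

universe u v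

/-- `Θ_n(P)` is logically perfect: every free algebra `F` of finite rank `r` of the variety of
associative `P`-algebras with `x_1 ⋯ x_n = 0` is logically homogeneous. -/
def LogicallyPerfect (P : Type u) [Field P] (n : ℕ) : Prop :=
  ∀ (r : ℕ) (F : Type u) [NonUnitalRing F] [Module P F] [IsScalarTower P F F]
    [SMulCommClass P F F] (x : Fin r → F), IsFreeNilp P n r F x → LogicallyHomogeneous P F

/-- `Θ_n(P)` is logically regular: if `F` is a free algebra of finite rank of `Θ_n(P)` and the
algebra `H` of `Θ_n(P)` realizes the same types of `k`-tuples as `F` for every `k ≥ 1`, then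
`F` and `H` are isomorphic. -/
def LogicallyRegular (P : Type u) [Field P] (n : ℕ) : Prop :=
  ∀ (r : ℕ) (F : Type u) [NonUnitalRing F] [Module P F] [IsScalarTower P F F]
    [SMulCommClass P F F] (x : Fin r → F), IsFreeNilp P n r F x →
    ∀ (H : Type v) [NonUnitalRing H] [Module P H] [IsScalarTower P H H] [SMulCommClass P H H],
      IsNilp P H n → Isotypic (algLang P) F H → ∃ f : F →ₙₐ[P] H, Function.Bijective f

theorem map_realize {P : Type u} [Field P] {F : Type u} [NonUnitalRing F] [Module P F]
    (σ : F →ₙₐ[P] F) {α : Type} (v : α → F) (t : (algLang P).Term α) :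
    σ (t.realize v) = t.realize (fun a => σ (v a)) := by
  induction t with
  | var a => rfl
  | @func l f ts ih =>
    match l, f with
    | _, AlgFn.zero => exact map_zero σ
    | _, AlgFn.add =>
      change σ ((ts 0).realize v + (ts 1).realize v) = _
      rw [map_add, ih 0, ih 1]; rfl
    | _, AlgFn.neg =>
      change σ (- (ts 0).realize v) = _
      rw [map_neg, ih 0]; rfl
    | _, AlgFn.mul =>
      change σ ((ts 0).realize v * (ts 1).realize v) = _
      rw [map_mul, ih 0, ih 1]; rfl
    | _, AlgFn.smul c =>
      change σ (c • (ts 0).realize v) = _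
      rw [map_smul, ih 0]; rfl

instance algLang_isAlgebraic (P : Type u) : (algLang P).IsAlgebraic :=
  fun _ => inferInstanceAs (IsEmpty Empty)

/-- For every field `P` and every `n ≥ 2` the variety `Θ_n(P)` is logically perfect and logically
regular. -/
theorem result (P : Type u) [Field P] (n : ℕ) (hn : 2 ≤ n) :
    LogicallyPerfect P n ∧ LogicallyRegular.{u, v} P n := by
  refine ⟨fun r F _ _ _ _ x hF => hF.homogeneous (by omega), ?_⟩
  intro r F _ _ _ _ x hF H _ _ _ _ _ iso
  have hh := hF.homogeneous (by omega : 1 ≤ n)
  have gen : ∀ w : F, ∃ t : (algLang P).Term (Fin (r + 1)),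
      t.realize (Fin.snoc x 0 : Fin (r + 1) → F) = w := by
    intro w
    obtain ⟨t, rfl⟩ := hF.exists_term w
    refine ⟨t.relabel Fin.castSucc, ?_⟩
    rw [Language.Term.realize_relabel]
    congr 1
    funext i
    simp
  obtain ⟨f, hf, b, hb⟩ := exists_bij (L := algLang P) (H := H) (by omega) _ gen (by
    intro ν hν w
    obtain ⟨σ, hσ, hi⟩ := hh (r + 1) (by omega) _ ν hν
    obtain ⟨w', rfl⟩ := hσ.2 w
    obtain ⟨t, rfl⟩ := gen w'
    refine ⟨t, ?_⟩
    rw [map_realize]
    congr 1
    funext i
    exact (hi i).symm) iso
  choose T hT using gen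
  refine ⟨{ toFun := f, map_smul' := ?_, map_zero' := ?_, map_add' := ?_, map_mul' := ?_ }, hf⟩
  · intro c a
    have h := hb (Language.Term.func (l := 1) (AlgFn.smul c : AlgFn P 1) ![T a])
    have h1 := hb (T a)
    rw [hT] at h1
    have e1 : (Language.Term.func (l := 1) (AlgFn.smul c : AlgFn P 1) ![T a] :
        (algLang P).Term (Fin (r + 1))).realize (Fin.snoc x 0 : Fin (r + 1) → F) =
          c • (T a).realize (Fin.snoc x 0 : Fin (r + 1) → F) := rfl
    have e2 : (Language.Term.func (l := 1) (AlgFn.smul c : AlgFn P 1) ![T a] :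
        (algLang P).Term (Fin (r + 1))).realize b = c • (T a).realize b := rfl
    rw [e1, e2, hT, ← h1] at h
    exact h
  · exact hb (Language.Term.func (l := 0) (AlgFn.zero : AlgFn P 0) ![])
  · intro a a'
    have h := hb (Language.Term.func (l := 2) (AlgFn.add : AlgFn P 2) ![T a, T a'])
    have h1 := hb (T a)
    have h2 := hb (T a')
    rw [hT] at h1 h2
    have e1 : (Language.Term.func (l := 2) (AlgFn.add : AlgFn P 2) ![T a, T a'] :
        (algLang P).Term (Fin (r + 1))).realize (Fin.snoc x 0 : Fin (r + 1) → F) =
          (T a).realize (Fin.snoc x 0 : Fin (r + 1) → F) +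
          (T a').realize (Fin.snoc x 0 : Fin (r + 1) → F) := rfl
    have e2 : (Language.Term.func (l := 2) (AlgFn.add : AlgFn P 2) ![T a, T a'] :
        (algLang P).Term (Fin (r + 1))).realize b = (T a).realize b + (T a').realize b := rfl
    rw [e1, e2, hT, hT, ← h1, ← h2] at h
    exact h
  · intro a a'
    have h := hb (Language.Term.func (l := 2) (AlgFn.mul : AlgFn P 2) ![T a, T a'])
    have h1 := hb (T a)
    have h2 := hb (T a')
    rw [hT] at h1 h2
    have e1 : (Language.Term.func (l := 2) (AlgFn.mul : AlgFn P 2) ![T a, T a'] :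
        (algLang P).Term (Fin (r + 1))).realize (Fin.snoc x 0 : Fin (r + 1) → F) =
          (T a).realize (Fin.snoc x 0 : Fin (r + 1) → F) *
          (T a').realize (Fin.snoc x 0 : Fin (r + 1) → F) := rfl
    have e2 : (Language.Term.func (l := 2) (AlgFn.mul : AlgFn P 2) ![T a, T a'] :
        (algLang P).Term (Fin (r + 1))).realize b = (T a).realize b * (T a').realize b := rfl
    rw [e1, e2, hT, hT, ← h1, ← h2] at h
    exact h

end Pool.Agent.Results.MP_00fd70_lc.PerfectAndRegular
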